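import Pool.Agent.H752.GM.Stubs
import Pool.Agent.H620R2.GaugeX.Base
import Pool.Agent.H671R2.PolyAuto

/-!
# Task D1: the theorem of Fortnow and Santhanam relative to an oracle
-/

namespace Pool.Agent.H752.GM

open Pool.Agent.NPC Pool.Agent.H620R2.Gauge Finset

namespace D1H

/-- pigeonhole: some value is taken on many tuples -/
theorem pigeon {α β : Type} [DecidableEq α] [DecidableEq β] (m : ℕ) (hm : 0 < m) (U' : Finset α)
    (W : Finset β) (F : (Fin m → α) → β) (hF : ∀ t : Fin m → α, (∀ i, t i ∈ U') → F t ∈ W)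
    (hW : W.card ≤ 2 ^ m) (hU : U'.Nonempty) :
    ∃ z ∈ W, ∃ C : Finset α, C ⊆ U' ∧ U'.card ≤ 2 * C.card ∧
      ∀ x ∈ C, ∃ t : Fin m → α, (∀ i, t i ∈ U') ∧ (∃ i, t i = x) ∧ F t = z := by
  classical
  by_contra hcon
  push Not at hcon
  -- the set of the components
  let C : β → Finset α := fun z => U'.filter (fun x => ∃ t : Fin m → α, (∀ i, t i ∈ U') ∧
    (∃ i, t i = x) ∧ F t = z)
  have h1 : ∀ z ∈ W, 2 * (C z).card < U'.card := by
    intro z hz
    by_contra h
    push Not at h
    obtain ⟨x, hx, hx'⟩ := hcon z hz (C z) (Finset.filter_subset _ _) h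
    obtain ⟨t, ht1, ht2, ht3⟩ := (Finset.mem_filter.1 hx).2
    obtain ⟨i, hi⟩ := ht2
    exact hx' t ht1 ⟨i, hi⟩ ht3
  let S : Finset (Fin m → α) := Fintype.piFinset (fun _ => U')
  have hS : S.card = U'.card ^ m := by
    simp [S, Fintype.card_piFinset]
  have h2 : S.card = ∑ z ∈ W, (S.filter (fun t => F t = z)).card := by
    apply Finset.card_eq_sum_card_fiberwise
    intro t ht
    exact hF t (fun i => Fintype.mem_piFinset.1 ht i)
  have h3 : ∀ z ∈ W, (S.filter (fun t => F t = z)).card ≤ (C z).card ^ m := by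
    intro z _
    have : (S.filter (fun t => F t = z)) ⊆ Fintype.piFinset (fun _ : Fin m => C z) := by
      intro t ht
      rw [Finset.mem_filter] at ht
      rw [Fintype.mem_piFinset]
      intro i
      have h4 : ∀ i, t i ∈ U' := fun i => Fintype.mem_piFinset.1 ht.1 i
      exact Finset.mem_filter.2 ⟨h4 i, t, h4, ⟨i, rfl⟩, ht.2⟩
    refine (Finset.card_le_card this).trans ?_
    simp [Fintype.card_piFinset]
  obtain ⟨x0, hx0⟩ := hU
  have hWne : W.Nonempty := ⟨F (fun _ => x0), hF _ (fun _ => hx0)⟩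
  have h4 : ∑ z ∈ W, (S.filter (fun t => F t = z)).card * 2 ^ m < ∑ _z ∈ W, U'.card ^ m := by
    apply Finset.sum_lt_sum_of_nonempty hWne
    intro z hz
    calc (S.filter (fun t => F t = z)).card * 2 ^ m ≤ (C z).card ^ m * 2 ^ m :=
          Nat.mul_le_mul_right _ (h3 z hz)
      _ = (2 * (C z).card) ^ m := by rw [← mul_pow, mul_comm]
      _ < U'.card ^ m := Nat.pow_lt_pow_left (h1 z hz) (by omega)
  rw [← Finset.sum_mul, ← h2, hS, Finset.sum_const, smul_eq_mul] at h4
  have h5 : W.card * U'.card ^ m ≤ 2 ^ m * U'.card ^ m := Nat.mul_le_mul_right _ hW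
  rw [mul_comm (2 ^ m)] at h5
  omega

/-- the greedy cover -/
theorem cover {α β : Type} [DecidableEq α] [DecidableEq β] (m : ℕ) (hm : 0 < m) (U : Finset α)
    (W : Finset β) (F : (Fin m → α) → β) (hF : ∀ t : Fin m → α, (∀ i, t i ∈ U) → F t ∈ W)
    (hW : W.card ≤ 2 ^ m) : ∀ (k : ℕ) (U' : Finset α), U' ⊆ U → U'.card < 2 ^ k →
    ∃ Z : List β, Z.length ≤ k ∧ (∀ z ∈ Z, z ∈ W) ∧ ∀ x ∈ U', ∃ t : Fin m → α,
      (∀ i, t i ∈ U) ∧ (∃ i, t i = x) ∧ F t ∈ Z := by
  classical
  intro k
  induction k with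
  | zero =>
    intro U' _ hc
    have : U' = ∅ := by
      rw [← Finset.card_eq_zero]
      omega
    refine ⟨[], by simp, by simp, ?_⟩
    intro x hx
    rw [this] at hx
    simp at hx
  | succ k ih =>
    intro U' hU' hc
    by_cases hne : U'.Nonempty
    · obtain ⟨z, hz, C, hC, hcard, hCx⟩ := pigeon m hm U' W F
        (fun t ht => hF t (fun i => hU' (ht i))) hW hne
      have h1 : (U' \ C).card < 2 ^ k := by
        rw [Finset.card_sdiff_of_subset hC]
        have := Finset.card_le_card hC
        rw [pow_succ] at hc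
        omega
      obtain ⟨Z, hZ1, hZ2, hZ3⟩ := ih (U' \ C) ((Finset.sdiff_subset).trans hU') h1
      refine ⟨z :: Z, by simpa using hZ1, ?_, ?_⟩
      · intro y hy
        rcases List.mem_cons.1 hy with rfl | hy
        · exact hz
        · exact hZ2 y hy
      · intro x hx
        by_cases hxC : x ∈ C
        · obtain ⟨t, ht1, ht2, ht3⟩ := hCx x hxC
          exact ⟨t, fun i => hU' (ht1 i), ht2, by rw [ht3]; simp⟩
        · obtain ⟨t, ht1, ht2, ht3⟩ := hZ3 x (Finset.mem_sdiff.2 ⟨hx, hxC⟩)
          exact ⟨t, ht1, ht2, List.mem_cons_of_mem _ ht3⟩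
    · rw [Finset.not_nonempty_iff_eq_empty] at hne
      refine ⟨[], by simp, by simp, ?_⟩
      intro x hx
      rw [hne] at hx
      simp at hx

/-- the strings of length at most `n` -/
noncomputable def strs (n : ℕ) : Finset (List Bool) :=
  (Finset.range (n + 1)).biUnion fun k => (Finset.univ : Finset (Fin k → Bool)).image List.ofFn

theorem mem_strs {n : ℕ} {x : List Bool} : x ∈ strs n ↔ x.length ≤ n := by
  unfold strs
  rw [Finset.mem_biUnion]
  constructor
  · rintro ⟨k, hk, h⟩
    obtain ⟨v, _, rfl⟩ := Finset.mem_image.1 h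
    rw [List.length_ofFn]
    have := Finset.mem_range.1 hk
    omega
  · intro h
    refine ⟨x.length, Finset.mem_range.2 (by omega), ?_⟩
    rw [Finset.mem_image]
    exact ⟨fun i => x[i], Finset.mem_univ _, List.ofFn_getElem⟩

theorem card_strs (n : ℕ) : (strs n).card < 2 ^ (n + 1) := by
  have h1 : (strs n).card ≤ ∑ k ∈ Finset.range (n + 1), 2 ^ k := by
    refine Finset.card_biUnion_le.trans ?_
    apply Finset.sum_le_sum
    intro k _
    refine Finset.card_image_le.trans ?_
    simp
  have h2 : ∑ k ∈ Finset.range (n + 1), 2 ^ k = 2 ^ (n + 1) - 1 := Nat.geomSum_eq (le_refl 2) (n + 1) |>.trans (by simp)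
  have h3 : 0 < 2 ^ (n + 1) := by positivity
  omega

/-- coding of lists -/
theorem lst_foldr (l : List (List Bool)) :
    l.foldr (fun x s => true :: pairBits x s) [] = lst l := by
  induction l with
  | nil => rfl
  | cons x l ih => rw [List.foldr_cons, ih]; rfl

theorem length_lst (l : List (List Bool)) : (lst l).length ≤ sz l := by
  induction l with
  | nil => simp [lst]
  | cons x l ih =>
    have h1 := A2.length_pairBits x (lst l)
    have h2 := sz_listBool_ge x
    change (true :: pairBits x (lst l)).length ≤ _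
    rw [List.length_cons, h1, sz_list_cons]
    omega

theorem poly_lst : Poly lst := by
  have h1 : Poly (fun p : List (List Bool) × List Bool × List Bool =>
      true :: pairBits p.2.1 p.2.2) :=
    Poly.cons (NPC.Poly.const true) (H622R2.poly_pairBits (Poly.fst (Poly.snd Poly.id))
      (Poly.snd (Poly.snd Poly.id)))
  refine (Poly.foldr (l := fun a : List (List Bool) => a) (s := fun _ => ([] : List Bool))
    (F := fun _ x s => true :: pairBits x s) Poly.id (NPC.Poly.const _) h1
    (Polynomial.C 4 * Polynomial.X + Polynomial.C 1) ?_).congr lst_foldr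
  intro a k _
  rw [lst_foldr]
  have h2 := sz_listBool_le (lst (a.drop k))
  have h3 := length_lst (a.drop k)
  have h4 := Poly.sz_drop_le a k
  simp only [Polynomial.eval_add, Polynomial.eval_mul, Polynomial.eval_C, Polynomial.eval_X]
  omega

/-- decode a list of strings -/
def dl (s : List Bool) : List (List Bool) := (unbits (List (List Bool)) s).getD []

theorem dl_bits (l : List (List Bool)) : dl (bits l) = l := by
  unfold dl
  rw [unbits_bits]
  rfl

theorem poly_dl : Poly dl := Poly.optGetD poly_unbits (NPC.Poly.const _)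

/-- the input proper -/
def gx (y : List Bool) : List Bool := (unpair (unpair y).2).1

/-- the advice -/
def gz (y : List Bool) : List (List Bool) := dl (unpair (unpair y).2).2

/-- the guessed list -/
def gw (y : List Bool) : List (List Bool) := dl (unpair y).1

theorem poly_gx : Poly gx := Poly.fst (poly_unpair.comp (Poly.snd poly_unpair))

theorem poly_gz : Poly gz := poly_dl.comp (Poly.snd (poly_unpair.comp (Poly.snd poly_unpair)))

theorem poly_gw : Poly gw := poly_dl.comp (Poly.fst poly_unpair)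

/-- the verifier -/
def ver (g D : List Bool → List Bool) (y : List Bool) : List Bool :=
  if g (gx y) ∈ gw y ∧ D (lst (gw y)) ∈ gz y then [true] else []

theorem isFP_ver {A : Oracle} {g D : List Bool → List Bool} (hg : IsFP A g) (hD : IsFP A D) :
    IsFP A (ver g D) := by
  have h1 : IsFP A (fun y => g (gx y)) := IsFP.comp hg (IsFP.of_poly poly_gx)
  have hφ : Poly (fun p : List Bool × List Bool => lst (gw p.1)) :=
    poly_lst.comp (poly_gw.comp (Poly.fst Poly.id))
  have hψ : Poly (fun p : List Bool × List Bool × List Bool =>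
      if p.2.1 ∈ gw p.1 ∧ p.2.2 ∈ gz p.1 then [true] else ([] : List Bool)) := by
    refine Poly.ite (Poly.decide_and ?_ ?_) (NPC.Poly.const _) (NPC.Poly.const _)
    · exact Poly.dec_mem (Poly.fst (Poly.snd Poly.id)) (poly_gw.comp (Poly.fst Poly.id))
    · exact Poly.dec_mem (Poly.snd (Poly.snd Poly.id)) (poly_gz.comp (Poly.fst Poly.id))
  exact IsFP.seq (F := fun y => g (gx y)) (G := D)
    (φ := fun p : List Bool × List Bool => lst (gw p.1))
    (ψ := fun p : List Bool × List Bool × List Bool =>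
      if p.2.1 ∈ gw p.1 ∧ p.2.2 ∈ gz p.1 then [true] else []) h1 hD hφ hψ

theorem ver_iff (g D : List Bool → List Bool) (w x h : List Bool) :
    ver g D (pairBits w (pairBits x h)) = [true] ↔ g x ∈ dl w ∧ D (lst (dl w)) ∈ dl h := by
  unfold ver gx gw gz
  rw [unpair_pairBits, unpair_pairBits]
  constructor
  · intro H
    by_contra hc
    rw [if_neg hc] at H
    simp at H
  · intro H
    rw [if_pos H]

theorem sz_list_le (l : List (List Bool)) (k n : ℕ) (hk : l.length ≤ k)
    (hn : ∀ x ∈ l, x.length ≤ n) : sz l ≤ k * (4 * n + 2) + 1 := by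
  have h1 := sz_le_length_mul l (4 * n + 1) (fun a ha => by
    have h2 := sz_listBool_le a
    have h3 := hn a ha
    omega)
  have h4 : l.length * (4 * n + 1 + 1) ≤ k * (4 * n + 2) := Nat.mul_le_mul hk (by omega)
  omega

end D1H

open D1H in
theorem t_distill : St_distill := by
  classical
  intro A R hR hdist L hL
  obtain ⟨D, q, hD, hDx⟩ := hdist
  obtain ⟨g, hg, hgx⟩ := hR.2 L hL
  obtain ⟨b, hb⟩ : ∃ b : Polynomial ℕ, ∀ x, (g x).length ≤ b.eval x.length := by
    obtain ⟨M, hM⟩ := hg
    obtain ⟨b, hb⟩ := A2.out_bound M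
    exact ⟨b, fun x => hb A x (g x) (hM x)⟩
  -- the advice
  have hcov : ∀ N : ℕ, ∃ Z : List (List Bool), Z.length ≤ N + 1 ∧
      (∀ z ∈ Z, z.length ≤ q.eval N ∧ z ∉ R) ∧
      ∀ x : List Bool, x.length ≤ N → x ∉ R → ∃ xs : List (List Bool),
        xs.length = q.eval N + 1 ∧ (∀ y ∈ xs, y.length ≤ N) ∧ x ∈ xs ∧ D (lst xs) ∈ Z := by
    intro N
    obtain ⟨Z, hZ1, hZ2, hZ3⟩ := cover (q.eval N + 1) (by omega)
      ((strs N).filter (fun x => x ∉ R)) ((strs (q.eval N)).filter (fun x => x ∉ R))
      (fun t => D (lst (List.ofFn t))) (by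
        intro t ht
        have h1 : ∀ x ∈ List.ofFn t, x.length ≤ N ∧ x ∉ R := by
          intro x hx
          obtain ⟨i, rfl⟩ := (List.mem_ofFn' t x).1 hx
          have := Finset.mem_filter.1 (ht i)
          exact ⟨mem_strs.1 this.1, this.2⟩
        have hne : List.ofFn t ≠ [] := by
          intro h
          have := congrArg List.length h
          simp at this
        obtain ⟨h2, h3⟩ := hDx (List.ofFn t) hne
        refine Finset.mem_filter.2 ⟨mem_strs.2 (h3 N (fun x hx => (h1 x hx).1)), ?_⟩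
        intro h4
        obtain ⟨x, hx, hxR⟩ := h2.1 h4
        exact (h1 x hx).2 hxR)
      ((Finset.card_filter_le _ _).trans (card_strs _).le) (N + 1)
      ((strs N).filter (fun x => x ∉ R)) (Finset.Subset.refl _)
      (lt_of_le_of_lt (Finset.card_filter_le _ _) (card_strs N))
    refine ⟨Z, hZ1, ?_, ?_⟩
    · intro z hz
      have := Finset.mem_filter.1 (hZ2 z hz)
      exact ⟨mem_strs.1 this.1, this.2⟩
    · intro x hx hxR
      obtain ⟨t, ht1, ⟨i, hi⟩, ht3⟩ := hZ3 x (Finset.mem_filter.2 ⟨mem_strs.2 hx, hxR⟩)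
      refine ⟨List.ofFn t, by simp, ?_, ?_, ht3⟩
      · intro y hy
        obtain ⟨j, rfl⟩ := (List.mem_ofFn' t y).1 hy
        exact mem_strs.1 (Finset.mem_filter.1 (ht1 j)).1
      · rw [← hi]
        exact (List.mem_ofFn' t _).2 ⟨i, rfl⟩
  choose Z hZ1 hZ2 hZ3 using hcov
  -- the polynomial bounds
  let P : Polynomial ℕ := (q.comp b + 1) * (Polynomial.C 4 * b + Polynomial.C 2) + 1
  refine ⟨{y | ∃ w : List Bool, w.length ≤ P.eval y.length ∧ ver g D (pairBits w y) = [true]},
    fun n => bits (Z (b.eval n)),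
    (b + 1) * (Polynomial.C 4 * q.comp b + Polynomial.C 2) + 1, ⟨ver g D, P, isFP_ver hg hD,
      fun x => Iff.rfl⟩, ?_, ?_⟩
  · intro n
    rw [bits_length]
    have h1 := sz_list_le (Z (b.eval n)) (b.eval n + 1) (q.eval (b.eval n)) (hZ1 _)
      (fun z hz => (hZ2 _ z hz).1)
    simpa [Polynomial.eval_comp] using h1
  · intro x
    rw [Set.mem_ofPred_eq, Set.mem_compl_iff, hgx x]
    constructor
    · intro hx
      obtain ⟨xs, h1, h2, h3, h4⟩ := hZ3 (b.eval x.length) (g x) (hb x) hx
      refine ⟨bits xs, ?_, ?_⟩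
      · rw [bits_length]
        have h5 := sz_list_le xs (q.eval (b.eval x.length) + 1) (b.eval x.length) h1.le h2
        have h6 : P.eval x.length = (q.eval (b.eval x.length) + 1) * (4 * b.eval x.length + 2) + 1 := by
          simp [P, Polynomial.eval_comp]
        rw [← h6] at h5
        refine h5.trans (eval_mono P ?_)
        rw [A2.length_pairBits]
        omega
      · rw [ver_iff, dl_bits, dl_bits]
        exact ⟨h3, h4⟩
    · rintro ⟨w, _, hw⟩ hxR
      rw [ver_iff, dl_bits] at hw
      have hne : dl w ≠ [] := List.ne_nil_of_mem hw.1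
      have h1 := ((hDx (dl w) hne).1).2 ⟨g x, hw.1, hxR⟩
      exact (hZ2 _ _ hw.2).2 h1

end Pool.Agent.H752.GM
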